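import Pool.Agent.N506.EXL
import Pool.Agent.N506.EXC

/-!
# Automorphisms of polynomial rings over arbitrary commutative rings

Base change of automorphisms, the kernel of the reduction modulo a nilpotent ideal, and the passage from
algebraically closed fields to arbitrary commutative rings.
-/

set_option autoImplicit false

namespace Pool.Agent.U293.EP

open MvPolynomial Pool.Agent.N506.EX

/-- the automorphisms of a polynomial ring over its coefficient ring -/
abbrev An (σ R : Type) [CommRing R] : Type := MvPolynomial σ R ≃ₐ[R] MvPolynomial σ R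

variable {σ R S T : Type} [CommRing R] [CommRing S] [CommRing T]

theorem an_ext {g h : An σ R} (H : ∀ i, g (X i) = h (X i)) : g = h := by
  apply AlgEquiv.coe_toAlgHom_injective
  apply MvPolynomial.algHom_ext
  exact H

/-- the base change of an automorphism, as an endomorphism -/
noncomputable def bcE (f : R →+* S) (g : An σ R) : MvPolynomial σ S →ₐ[S] MvPolynomial σ S :=
  aeval (fun i => map f (g (X i)))

theorem bcE_X (f : R →+* S) (g : An σ R) (i : σ) : bcE f g (X i) = map f (g (X i)) := by
  unfold bcE
  rw [aeval_X]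

theorem bcE_map (f : R →+* S) (g : An σ R) (P : MvPolynomial σ R) :
    bcE f g (map f P) = map f (g P) := by
  induction P using MvPolynomial.induction_on with
  | C a =>
    have h1 : g (C a) = C a := g.commutes a
    have h2 : bcE f g (C (f a)) = C (f a) := (bcE f g).commutes (f a)
    rw [map_C, h1, map_C, h2]
  | add p q hp hq => rw [map_add, map_add, map_add, map_add, hp, hq]
  | mul_X p i hp => rw [map_mul, map_mul, map_mul, map_mul, hp, map_X, bcE_X]

theorem bcE_mul (f : R →+* S) (g h : An σ R) (i : σ) :
    bcE f g (bcE f h (X i)) = map f ((g * h) (X i)) := by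
  rw [bcE_X, bcE_map]
  rfl

/-- the base change of automorphisms -/
noncomputable def bc (f : R →+* S) : An σ R →* An σ S where
  toFun g := AlgEquiv.ofAlgHom (bcE f g) (bcE f g⁻¹)
    (by
      apply MvPolynomial.algHom_ext
      intro i
      rw [AlgHom.comp_apply, bcE_mul, mul_inv_cancel]
      exact map_X f i)
    (by
      apply MvPolynomial.algHom_ext
      intro i
      rw [AlgHom.comp_apply, bcE_mul, inv_mul_cancel]
      exact map_X f i)
  map_one' := by
    apply an_ext
    intro i
    change bcE f 1 (X i) = X i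
    rw [bcE_X]
    exact map_X f i
  map_mul' g h := by
    apply an_ext
    intro i
    change bcE f (g * h) (X i) = bcE f g (bcE f h (X i))
    rw [bcE_mul, bcE_X]

theorem bc_X (f : R →+* S) (g : An σ R) (i : σ) : bc f g (X i) = map f (g (X i)) := bcE_X f g i

theorem bc_map (f : R →+* S) (g : An σ R) (P : MvPolynomial σ R) :
    bc f g (map f P) = map f (g P) := bcE_map f g P

theorem bc_injective {f : R →+* S} (hf : Function.Injective f) :
    Function.Injective (bc (σ := σ) f) := by
  intro g h hgh
  apply an_ext
  intro i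
  apply map_injective f hf
  rw [← bc_X, ← bc_X, hgh]

theorem bc_comp (f : R →+* S) (g : S →+* T) (h : An σ R) : bc g (bc f h) = bc (g.comp f) h := by
  apply an_ext
  intro i
  rw [bc_X, bc_X, bc_X, MvPolynomial.map_map]

/-- elements of the kernel of the reduction modulo `I` change each polynomial by an element of `I[X]` -/
theorem sub_mem_of_ker {I : Ideal R} {g : An σ R} (hg : g ∈ (bc (σ := σ) (Ideal.Quotient.mk I)).ker)
    (P : MvPolynomial σ R) : g P - P ∈ I.map (C : R →+* MvPolynomial σ R) := by
  have h1 : map (Ideal.Quotient.mk I) (g P) = map (Ideal.Quotient.mk I) P := by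
    rw [← bc_map, (MonoidHom.mem_ker).1 hg]
    rfl
  have h2 : g P - P ∈ RingHom.ker (map (σ := σ) (Ideal.Quotient.mk I)) := by
    rw [RingHom.mem_ker, map_sub, h1, sub_self]
  rwa [MvPolynomial.ker_map, Ideal.mk_ker] at h2

/-- the kernel of the reduction modulo an ideal of square zero is commutative -/
theorem comm_of_sq {I : Ideal R} (hI : I * I = ⊥) {a b : An σ R}
    (ha : a ∈ (bc (σ := σ) (Ideal.Quotient.mk I)).ker) (hb : b ∈ (bc (σ := σ) (Ideal.Quotient.mk I)).ker) :
    a * b = b * a := by
  have hII : ∀ u v : MvPolynomial σ R, u ∈ I.map (C : R →+* MvPolynomial σ R) →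
      v ∈ I.map (C : R →+* MvPolynomial σ R) → u * v = 0 := by
    intro u v hu hv
    have h1 : u * v ∈ I.map (C : R →+* MvPolynomial σ R) * I.map (C : R →+* MvPolynomial σ R) :=
      Ideal.mul_mem_mul hu hv
    rw [← Ideal.map_mul, hI, Ideal.map_bot] at h1
    exact (Ideal.mem_bot).1 h1
  -- automorphisms in the kernel fix `I[X]`
  have key : ∀ g : An σ R, g ∈ (bc (σ := σ) (Ideal.Quotient.mk I)).ker →
      ∀ u ∈ I.map (C : R →+* MvPolynomial σ R), g u = u := by
    intro g hg u hu
    have h1 : ∀ P, g (u * P) = u * P := by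
      refine Submodule.span_induction (p := fun u _ => ∀ P, g (u * P) = u * P) ?_ ?_ ?_ ?_ hu
      · rintro _ ⟨c, hc, rfl⟩ P
        have h2 : g (C c) = C c := g.commutes c
        have h3 : (C c : MvPolynomial σ R) * (g P - P) = 0 :=
          hII _ _ (Ideal.mem_map_of_mem _ hc) (sub_mem_of_ker hg P)
        rw [map_mul, h2]
        linear_combination h3
      · intro P
        rw [zero_mul, map_zero]
      · intro x y _ _ hx hy P
        rw [add_mul, map_add, hx, hy]
      · intro r x _ hx P
        rw [smul_eq_mul, mul_comm r x, mul_assoc]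
        exact hx _
    have := h1 1
    rwa [mul_one] at this
  apply an_ext
  intro i
  rw [AlgEquiv.mul_apply, AlgEquiv.mul_apply]
  have h1 := key a ha _ (sub_mem_of_ker hb (X i))
  have h2 := key b hb _ (sub_mem_of_ker ha (X i))
  rw [map_sub] at h1 h2
  linear_combination h1 - h2

/-- the kernel of the reduction modulo a nilpotent ideal is solvable -/
theorem solvable_ker (k : ℕ) : ∀ (R : Type) [CommRing R] (I : Ideal R), I ^ (2 ^ k) = ⊥ →
    Group.IsSolvable (bc (σ := σ) (Ideal.Quotient.mk I)).ker := by
  induction k with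
  | zero =>
    intro R _ I hI
    rw [pow_zero, pow_one] at hI
    apply Group.isSolvable_of_comm
    rintro ⟨a, ha⟩ ⟨b, hb⟩
    apply Subtype.ext
    exact comm_of_sq (by rw [hI, Ideal.bot_mul]) ha hb
  | succ k ih =>
    intro R _ I hI
    have hJ : I ^ (2 ^ k) * I ^ (2 ^ k) = ⊥ := by
      rw [← pow_add, ← two_mul, ← pow_succ']
      exact hI
    obtain ⟨J, hJdef⟩ : ∃ J : Ideal R, J = I ^ (2 ^ k) := ⟨_, rfl⟩
    rw [← hJdef] at hJ
    have h1 := ih (R ⧸ J) (I.map (Ideal.Quotient.mk J)) (by
      rw [← Ideal.map_pow, ← hJdef, Ideal.map_quotient_self])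
    have hJI : J ≤ I := by
      rw [hJdef]
      exact Ideal.pow_le_self (by positivity)
    -- the reduction modulo `J` of an element of the kernel
    have h2 : ∀ g : An σ R, g ∈ (bc (σ := σ) (Ideal.Quotient.mk I)).ker →
        bc (σ := σ) (Ideal.Quotient.mk J) g ∈
          (bc (σ := σ) (Ideal.Quotient.mk (I.map (Ideal.Quotient.mk J)))).ker := by
      intro g hg
      rw [MonoidHom.mem_ker]
      apply an_ext
      intro i
      rw [bc_comp, bc_X]
      have h3 := sub_mem_of_ker hg (X i)
      have h4 : map ((Ideal.Quotient.mk (I.map (Ideal.Quotient.mk J))).comp (Ideal.Quotient.mk J))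
          (g (X i) - X i) = 0 := by
        have h5 : I.map (C : R →+* MvPolynomial σ R) ≤ RingHom.ker
            (map (σ := σ) ((Ideal.Quotient.mk (I.map (Ideal.Quotient.mk J))).comp
              (Ideal.Quotient.mk J))) := by
          rw [Ideal.map_le_iff_le_comap]
          intro c hc
          rw [Ideal.mem_comap, RingHom.mem_ker, map_C, RingHom.comp_apply,
            (Ideal.Quotient.eq_zero_iff_mem).2 (Ideal.mem_map_of_mem _ hc), C_0]
        exact (RingHom.mem_ker).1 (h5 h3)
      rw [map_sub, sub_eq_zero, map_X] at h4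
      exact h4
    let f : (bc (σ := σ) (Ideal.Quotient.mk I)).ker →*
        (bc (σ := σ) (Ideal.Quotient.mk (I.map (Ideal.Quotient.mk J)))).ker :=
      ((bc (σ := σ) (Ideal.Quotient.mk J)).comp (bc (σ := σ) (Ideal.Quotient.mk I)).ker.subtype).codRestrict
        _ (fun g => h2 _ g.2)
    have h3 : Group.IsSolvable f.ker := by
      apply Group.isSolvable_of_comm
      rintro ⟨⟨a, ha⟩, ha'⟩ ⟨⟨b, hb⟩, hb'⟩
      apply Subtype.ext
      apply Subtype.ext
      refine comm_of_sq hJ ?_ ?_
      · exact congrArg Subtype.val ((MonoidHom.mem_ker).1 ha')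
      · exact congrArg Subtype.val ((MonoidHom.mem_ker).1 hb')
    exact Group.isSolvable_of_ker_le_range f.ker.subtype f (by rw [Subgroup.range_subtype])

end Pool.Agent.U293.EP
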