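import Pool.Agent.U293.EP.Base

/-!
# From algebraically closed fields to arbitrary commutative rings
-/

set_option autoImplicit false

namespace Pool.Agent.U293.EP

open MvPolynomial Pool.Agent.N506.EX

variable {σ R S : Type} [CommRing R] [CommRing S]

/-- the automorphisms with all base changes to algebraically closed fields in given subgroups -/
def FT (T : ∀ (K : Type) [Field K], Subgroup (An σ K)) (R : Type) [CommRing R] :
    Subgroup (An σ R) where
  carrier := {g | ∀ (K : Type) [Field K] [IsAlgClosed K] (f : R →+* K), bc f g ∈ T K}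
  one_mem' := fun K _ _ f => by
    rw [map_one]
    exact one_mem _
  mul_mem' := fun {a b} ha hb K _ _ f => by
    rw [map_mul]
    exact mul_mem (ha K f) (hb K f)
  inv_mem' := fun {a} ha K _ _ f => by
    rw [map_inv]
    exact inv_mem (ha K f)

/-- every automorphism is defined over a finitely generated ring -/
theorem defined_over [Finite σ] (g : An σ R) : ∃ S : Set R, S.Finite ∧
    ∀ R0 : Subring R, S ⊆ R0 → g ∈ (bc (σ := σ) R0.subtype).range := by
  classical
  have := Fintype.ofFinite σ
  refine ⟨⋃ i : σ, (((g (X i)).coeffs ∪ ((g⁻¹ : An σ R) (X i)).coeffs : Finset R) : Set R),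
    Set.finite_iUnion fun i => Finset.finite_toSet _, fun R0 hR0 => ?_⟩
  have h1 : ∀ (U : MvPolynomial σ R), (∀ m, U.coeff m ≠ 0 → U.coeff m ∈ R0) →
      ∃ V : MvPolynomial σ R0, map R0.subtype V = U := by
    intro U hU
    have h2 : U ∈ Set.range (MvPolynomial.map (σ := σ) R0.subtype) := by
      rw [MvPolynomial.mem_range_map_iff_coeffs_subset]
      intro x hx
      rw [Finset.mem_coe, MvPolynomial.mem_coeffs_iff] at hx
      obtain ⟨m, hm, rfl⟩ := hx
      exact ⟨⟨_, hU m (MvPolynomial.mem_support_iff.1 hm)⟩, rfl⟩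
    exact h2
  have h2 : ∀ i, ∃ V : MvPolynomial σ R0, map R0.subtype V = g (X i) := by
    intro i
    apply h1
    intro m hm
    apply hR0
    simp only [Set.mem_iUnion]
    refine ⟨i, ?_⟩
    rw [Finset.mem_coe, Finset.mem_union, MvPolynomial.mem_coeffs_iff]
    exact Or.inl ⟨m, MvPolynomial.mem_support_iff.2 hm, rfl⟩
  have h3 : ∀ i, ∃ V : MvPolynomial σ R0, map R0.subtype V = (g⁻¹ : An σ R) (X i) := by
    intro i
    apply h1
    intro m hm
    apply hR0
    simp only [Set.mem_iUnion]
    refine ⟨i, ?_⟩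
    rw [Finset.mem_coe, Finset.mem_union, MvPolynomial.mem_coeffs_iff (p := (g⁻¹ : An σ R) (X i))]
    exact Or.inr ⟨m, MvPolynomial.mem_support_iff.2 hm, rfl⟩
  choose P hP using h2
  choose Q hQ using h3
  have hinj : Function.Injective (map (σ := σ) R0.subtype) :=
    map_injective _ R0.subtype_injective
  have key : ∀ (g : An σ R) (P : σ → MvPolynomial σ R0), (∀ i, map R0.subtype (P i) = g (X i)) →
      ∀ U : MvPolynomial σ R0, map R0.subtype (aeval P U) = g (map R0.subtype U) := by
    intro g P hP U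
    induction U using MvPolynomial.induction_on with
    | C a =>
      have e1 : g (C (R0.subtype a)) = C (R0.subtype a) := g.commutes _
      rw [map_C, e1]
      have e2 : aeval P (C a) = C a := algHom_C _ _
      rw [e2, map_C]
    | add p q hp hq => rw [map_add, map_add, map_add, map_add, hp, hq]
    | mul_X p i hp => rw [map_mul, map_mul, map_mul, map_mul, hp, map_X, aeval_X, hP]
  refine ⟨AlgEquiv.ofAlgHom (aeval P) (aeval Q) ?_ ?_, ?_⟩
  · apply MvPolynomial.algHom_ext
    intro i
    apply hinj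
    rw [AlgHom.comp_apply, aeval_X, key g P hP, hQ, AlgHom.id_apply, map_X]
    exact g.apply_symm_apply _
  · apply MvPolynomial.algHom_ext
    intro i
    apply hinj
    rw [AlgHom.comp_apply, aeval_X, key (g⁻¹) Q hQ, hP, AlgHom.id_apply, map_X]
    exact g.symm_apply_apply _
  · apply an_ext
    intro i
    rw [bc_X]
    change map R0.subtype (aeval P (X i)) = g (X i)
    rw [aeval_X, hP]

/-- the base change is trivial iff the coefficients of `g (X i) - X i` are in the kernel -/
theorem bc_eq_one_iff (f : R →+* S) (g : An σ R) :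
    bc f g = 1 ↔ ∀ i m, (g (X i) - X i).coeff m ∈ RingHom.ker f := by
  constructor
  · intro h i m
    have h1 : map f (g (X i)) = X i := by
      rw [← bc_X, h]
      rfl
    rw [RingHom.mem_ker, ← coeff_map, map_sub, h1, map_X, sub_self, coeff_zero]
  · intro h
    apply an_ext
    intro i
    rw [bc_X]
    change map f (g (X i)) = X i
    rw [← sub_eq_zero, ← map_X f i, ← map_sub]
    ext m
    rw [coeff_map, coeff_zero]
    exact (RingHom.mem_ker).1 (h i m)

theorem bc_ker_congr {S' : Type} [CommRing S'] (f : R →+* S) (f' : R →+* S')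
    (h : RingHom.ker f = RingHom.ker f') (g : An σ R) : bc f g = 1 ↔ bc f' g = 1 := by
  rw [bc_eq_one_iff, bc_eq_one_iff, h]

section

variable (T : ∀ (K : Type) [Field K], Subgroup (An σ K))
  (hT : ∀ (K : Type) [Field K] [IsAlgClosed K], Ex (T K))

include hT in
theorem step (R : Type) [CommRing R] (R0 : Type) [CommRing R0] (ι : R0 →+* R)
    (hι : Function.Injective ι) (p : Ideal R0) (hp : p ∈ minimalPrimes R0)
    (N : Subgroup (An σ R0)) (hN : N ≤ (FT T R).comap (bc ι))
    (h : Ex ↥(N ⊓ (bc (σ := σ) (Ideal.Quotient.mk p)).ker)) : Ex N := by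
  obtain ⟨q, hq, hqp⟩ := Ideal.exists_comap_eq_of_mem_minimalPrimes_of_injective hι p hp
  let K : Type := AlgebraicClosure (FractionRing (R ⧸ q))
  let j : (R ⧸ q) →+* K := (algebraMap (FractionRing (R ⧸ q)) K).comp (algebraMap (R ⧸ q) _)
  have hj : Function.Injective j :=
    (algebraMap (FractionRing (R ⧸ q)) K).injective.comp (IsFractionRing.injective _ _)
  let f : R →+* K := j.comp (Ideal.Quotient.mk q)
  have hker : RingHom.ker (f.comp ι) = p := by
    ext x
    rw [RingHom.mem_ker, ← hqp, Ideal.mem_comap]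
    change j (Ideal.Quotient.mk q (ι x)) = 0 ↔ _
    rw [map_eq_zero_iff j hj, Ideal.Quotient.eq_zero_iff_mem]
  let π : N →* T K := ((bc (σ := σ) (f.comp ι)).comp N.subtype).codRestrict _ (fun g => by
    have h1 := hN g.2 K f
    rw [bc_comp] at h1
    exact h1)
  refine Ex.ext π (hT K) ?_
  let u : π.ker →* ↥(N ⊓ (bc (σ := σ) (Ideal.Quotient.mk p)).ker) :=
    (N.subtype.comp π.ker.subtype).codRestrict _ (fun g => by
      refine ⟨g.1.2, MonoidHom.mem_ker.2 ?_⟩
      have h1 : bc (σ := σ) (f.comp ι) (g : N) = 1 := congrArg Subtype.val ((MonoidHom.mem_ker).1 g.2)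
      refine (bc_ker_congr _ _ ?_ _).1 h1
      rw [hker, Ideal.mk_ker])
  refine Ex.of_injective h u ?_
  intro a b hab
  apply Subtype.ext
  apply Subtype.ext
  have h2 := congrArg (fun x : ↥(N ⊓ (bc (σ := σ) (Ideal.Quotient.mk p)).ker) => (x : An σ R0)) hab
  exact h2

include hT in
theorem steps (R : Type) [CommRing R] (R0 : Type) [CommRing R0] (ι : R0 →+* R)
    (hι : Function.Injective ι) (s : Finset (Ideal R0)) : (∀ p ∈ s, p ∈ minimalPrimes R0) →
    ∀ N : Subgroup (An σ R0), N ≤ (FT T R).comap (bc ι) →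
    Ex ↥(N ⊓ ⨅ p ∈ s, (bc (σ := σ) (Ideal.Quotient.mk p)).ker) → Ex N := by
  classical
  induction s using Finset.induction_on with
  | empty =>
    intro _ N _ h
    have e : (⨅ p ∈ (∅ : Finset (Ideal R0)), (bc (σ := σ) (Ideal.Quotient.mk p)).ker) = ⊤ := by simp
    rw [e, inf_top_eq] at h
    exact h
  | insert p s hps ih =>
    intro hs N hN h
    refine step T hT R R0 ι hι p (hs p (Finset.mem_insert_self _ _)) N hN ?_
    refine ih (fun q hq => hs q (Finset.mem_insert_of_mem hq)) _ (inf_le_left.trans hN) ?_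
    rw [Finset.iInf_insert, ← inf_assoc] at h
    exact h

include hT in
/-- exactness over algebraically closed fields implies exactness over all commutative rings -/
theorem ex_FT [Finite σ] (R : Type) [CommRing R] : Ex ↥(FT T R) := by
  classical
  refine Ex.of_fg fun H hH => ?_
  obtain ⟨Sg, hSg⟩ := hH
  choose S hSfin hS using fun g : ↥(FT T R) => defined_over (g : An σ R)
  have hfin : (⋃ g ∈ Sg, S g).Finite := Set.Finite.biUnion Sg.finite_toSet fun g _ => hSfin g
  obtain ⟨R0, hR0⟩ : ∃ R0 : Subring R, R0 = Subring.closure (⋃ g ∈ Sg, S g) := ⟨_, rfl⟩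
  have hnoeth : IsNoetherianRing R0 := by
    rw [hR0]
    exact is_noetherian_subring_closure _ hfin
  have hrange : ∀ h ∈ H, (h : An σ R) ∈ (bc (σ := σ) R0.subtype).range := by
    have h1 : H ≤ ((bc (σ := σ) R0.subtype).range).comap (FT T R).subtype := by
      rw [← hSg, Subgroup.closure_le]
      intro g hg
      refine hS g R0 ?_
      rw [hR0]
      refine Set.Subset.trans ?_ Subring.subset_closure
      exact Set.subset_biUnion_of_mem (u := S) hg
    exact fun h hh => h1 hh
  have hι : Function.Injective (R0.subtype) := R0.subtype_injective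
  have hG0 : Ex ↥((FT T R).comap (bc (σ := σ) R0.subtype)) := by
    have hmf := minimalPrimes.finite_of_isNoetherianRing R0
    refine steps T hT R R0 R0.subtype hι hmf.toFinset (fun p hp => hmf.mem_toFinset.1 hp) _ le_rfl ?_
    obtain ⟨k, hk⟩ := IsNoetherianRing.isNilpotent_nilradical R0
    have hk2 : nilradical R0 ^ (2 ^ k) = ⊥ := by
      have h1 : nilradical R0 ^ (2 ^ k) ≤ nilradical R0 ^ k := Ideal.pow_le_pow_right (Nat.lt_two_pow_self).le
      rw [hk] at h1
      exact le_bot_iff.1 h1
    have hsol := solvable_ker (σ := σ) k R0 (nilradical R0) hk2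
    have hex : Ex ↥(bc (σ := σ) (Ideal.Quotient.mk (nilradical R0))).ker :=
      (Am.of_solvable (G := ↥(bc (σ := σ) (Ideal.Quotient.mk (nilradical R0))).ker)).ex
    refine Ex.of_injective hex (Subgroup.inclusion ?_) (Subgroup.inclusion_injective _)
    rintro g ⟨-, hg⟩
    rw [MonoidHom.mem_ker, bc_eq_one_iff, Ideal.mk_ker]
    intro i m
    have h1 : nilradical R0 = sInf (minimalPrimes R0) := by
      rw [nilradical, ← Ideal.sInf_minimalPrimes]
      rfl
    rw [h1, Ideal.mem_sInf]
    intro p hp
    have h2 : g ∈ (bc (σ := σ) (Ideal.Quotient.mk p)).ker := by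
      have hg' : g ∈ ⨅ p ∈ hmf.toFinset, (bc (σ := σ) (Ideal.Quotient.mk p)).ker := hg
      rw [Subgroup.mem_iInf] at hg'
      have hg2 := hg' p
      rw [Subgroup.mem_iInf] at hg2
      exact hg2 (hmf.mem_toFinset.2 hp)
    rw [MonoidHom.mem_ker, bc_eq_one_iff, Ideal.mk_ker] at h2
    exact h2 i m
  let e := MonoidHom.ofInjective (bc_injective (σ := σ) hι)
  let f : H →* ↥((FT T R).comap (bc (σ := σ) R0.subtype)) :=
    (e.symm.toMonoidHom.comp (((FT T R).subtype.comp H.subtype).codRestrict _
      (fun h => hrange h.1 h.2))).codRestrict _ (fun h => by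
        rw [Subgroup.mem_comap]
        have h1 : bc (σ := σ) R0.subtype (e.symm ⟨(h : ↥(FT T R)), hrange h.1 h.2⟩) =
            ((h : ↥(FT T R)) : An σ R) := congrArg Subtype.val (e.apply_symm_apply _)
        change bc (σ := σ) R0.subtype (e.symm ⟨(h : ↥(FT T R)), hrange h.1 h.2⟩) ∈ FT T R
        rw [h1]
        exact h.1.2)
  refine Ex.of_injective hG0 f ?_
  intro a b hab
  have h1 : e.symm ⟨(a : ↥(FT T R)), hrange a.1 a.2⟩ = e.symm ⟨(b : ↥(FT T R)), hrange b.1 b.2⟩ :=
    congrArg Subtype.val hab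
  have h2 := e.symm.injective h1
  apply Subtype.ext
  apply Subtype.ext
  have h3 := congrArg (fun x : ↥((bc (σ := σ) R0.subtype).range) => (x : An σ R)) h2
  exact h3

end

end Pool.Agent.U293.EP
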