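import Pool.Agent.U293.EP.Jvdk
import Pool.Agent.N506.EXM

/-!
# Groups of automorphisms preserving a flag of polynomial rings
-/

set_option autoImplicit false

namespace Pool.Agent.U293.EP

open Pool.Agent.N506.EX MvPolynomial Pool.Agent.U293.PA

/-- a ring automorphism fixing the coefficients, as an automorphism over the coefficient ring -/
noncomputable def toAn {s R : Type} [CommRing R] (g : RingAut (MvPolynomial s R))
    (h : ∀ r, g (C r) = C r) : An s R := AlgEquiv.ofRingEquiv (f := g) h

theorem toAn_apply {s R : Type} [CommRing R] (g : RingAut (MvPolynomial s R))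
    (h : ∀ r, g (C r) = C r) (P : MvPolynomial s R) : toAn g h P = g P := rfl

/-- the step from the coefficient ring to the polynomial ring -/
theorem ex_ker_step {P s R : Type} [Group P] [CommRing R] (τ : P →* RingAut R)
    (φ : P →* RingAut (MvPolynomial s R)) (hτ : ∀ p r, φ p (C r) = C (τ p r))
    (F : Subgroup (An s R)) (hF : Ex F)
    (hφF : ∀ (p : P) (h : ∀ r, φ p (C r) = C r), toAn (φ p) h ∈ F)
    (hk : Ex φ.ker) : Ex τ.ker := by
  have hC : ∀ p : τ.ker, ∀ r, φ (p : P) (C r) = C r := by
    intro p r
    rw [hτ, (MonoidHom.mem_ker).1 p.2]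
    rfl
  let u : τ.ker →* F :=
    { toFun := fun p => ⟨toAn (φ (p : P)) (hC p), hφF _ _⟩
      map_one' := by
        apply Subtype.ext
        apply an_ext
        intro i
        change φ 1 (X i) = X i
        rw [map_one]
        rfl
      map_mul' := fun p q => by
        apply Subtype.ext
        apply an_ext
        intro i
        change φ ((p : P) * (q : P)) (X i) = φ (p : P) (φ (q : P) (X i))
        rw [map_mul]
        rfl }
  refine Ex.ext u hF ?_
  let v : u.ker →* φ.ker :=
    (τ.ker.subtype.comp u.ker.subtype).codRestrict _ (fun p => by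
      refine (MonoidHom.mem_ker).2 ?_
      have h1 : u (p : τ.ker) = 1 := (MonoidHom.mem_ker).1 p.2
      have h2 : toAn (φ ((p : τ.ker) : P)) (hC p) = 1 := congrArg Subtype.val h1
      apply RingEquiv.ext
      intro x
      have h3 := DFunLike.congr_fun h2 x
      exact h3)
  refine Ex.of_injective hk v ?_
  intro a b hab
  apply Subtype.ext
  apply Subtype.ext
  have h2 := congrArg (fun x : ↥(φ.ker) => (x : P)) hab
  exact h2

theorem ex_base {P : Type} {L : Type} [Group P] [Group L] (φ : P →* L) (h : Ex φ.range) (hk : Ex φ.ker) :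
    Ex P := by
  refine Ex.ext φ.rangeRestrict h ?_
  rw [MonoidHom.ker_rangeRestrict]
  exact hk

end Pool.Agent.U293.EP
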