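import Pool.Agent.U293.EP.Plane
import Pool.Agent.U293.EP.Fib
import Pool.Agent.H922R2.K15

/-!
# Jung's theorem in characteristic zero, and the one variable case
-/

set_option autoImplicit false

namespace Pool.Agent.U293.EP

open Pool.Agent.N506.EX MvPolynomial Pool.Agent.U293.PA

/-- Jung's theorem (starting library, `H922R2.jvdk`) -/
theorem tame_top (K : Type) [Field K] [CharZero K] [IsAlgClosed K] : Tame K = ⊤ := by
  rw [eq_top_iff, ← Pool.Agent.H922R2.jvdk (k := K)]
  refine sup_le ?_ ?_
  · intro g hg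
    refine Subgroup.mem_sup_left (aff_top.2 ?_)
    obtain ⟨h0, h1⟩ := Pool.Agent.H922R2.AG_forms hg
    obtain ⟨a, b, e, h0⟩ := Pool.Agent.H922R2.mem_Wsub.1 h0
    obtain ⟨c, d, f, h1⟩ := Pool.Agent.H922R2.mem_Wsub.1 h1
    exact ⟨a, b, c, d, e, f, h0, h1⟩
  · intro g hg
    refine Subgroup.mem_sup_right (tri_top.2 ?_)
    obtain ⟨a, b, c, P, -, -, h0, h1⟩ := Pool.Agent.H922R2.EG_forms hg
    exact ⟨a, b, c, P, h0, h1⟩

/-- the tame automorphisms, as automorphisms of a polynomial ring over a commutative ring -/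
noncomputable def TameS (K : Type) [Field K] : Subgroup (An (Fin 2) K) := Tame K

/-- the fibrewise tame automorphisms of `R[x, y]` form an exact group -/
theorem ex_fibreTame (R : Type) [CommRing R] : Ex ↥(FT (σ := Fin 2) (fun K _ => TameS K) R) :=
  ex_FT (fun K _ => TameS K) (fun K _ _ => ex_tame K) R

/-- over a `ℚ`-algebra all automorphisms are fibrewise tame -/
theorem fibreTame_rat (R : Type) [CommRing R] (j : ℚ →+* R) (g : An (Fin 2) R) :
    g ∈ FT (σ := Fin 2) (fun K _ => TameS K) R := by
  intro K _ _ f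
  have hc : CharZero K := charZero_of_injective_ringHom (f.comp j).injective
  have h : bc f g ∈ (⊤ : Subgroup (Au K)) := Subgroup.mem_top _
  rw [← tame_top K] at h
  exact h

/-! ### One variable -/

section

variable {K : Type} [Field K]

/-- the group of automorphisms of `K[X]` -/
abbrev A1 (K : Type) [Field K] : Type := Polynomial K ≃ₐ[K] Polynomial K

theorem a1_comp (g : A1 K) (P : Polynomial K) : g P = P.comp (g Polynomial.X) := by
  rw [Polynomial.comp, ← Polynomial.algebraMap_eq, ← Polynomial.aeval_def]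
  rw [Polynomial.aeval_algHom_apply, Polynomial.aeval_X_left_apply]

theorem a1_form (g : A1 K) : ∃ a b : K, g Polynomial.X = Polynomial.C a * Polynomial.X + Polynomial.C b := by
  have h1 : ((g⁻¹ : A1 K) Polynomial.X).comp (g Polynomial.X) = Polynomial.X := by
    rw [← a1_comp]
    exact g.apply_symm_apply _
  have h2 : ((g⁻¹ : A1 K) Polynomial.X).natDegree * (g Polynomial.X).natDegree = 1 := by
    rw [← Polynomial.natDegree_comp, h1, Polynomial.natDegree_X]
  have h3 : (g Polynomial.X).natDegree = 1 := Nat.eq_one_of_mul_eq_one_left h2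
  exact ⟨_, _, Polynomial.eq_X_add_C_of_natDegree_le_one h3.le⟩

/-- the linear representation -/
noncomputable def rho1 : A1 K →* (Matrix (Fin 2) (Fin 2) K)ˣ :=
  MonoidHom.toHomUnits
    { toFun := fun g => !![(g Polynomial.X).coeff 1, 0; (g Polynomial.X).coeff 0, 1]
      map_one' := by
        ext i j
        fin_cases i <;> fin_cases j <;> simp
      map_mul' := by
        intro g h
        obtain ⟨a, b, hg⟩ := a1_form g
        obtain ⟨a', b', hh⟩ := a1_form h
        have h1 : (g * h) Polynomial.X = Polynomial.C (a' * a) * Polynomial.X + Polynomial.C (a' * b + b') := by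
          rw [AlgEquiv.mul_apply, hh, a1_comp, hg]
          simp only [Polynomial.add_comp, Polynomial.mul_comp, Polynomial.C_comp, Polynomial.X_comp,
            Polynomial.C_add, Polynomial.C_mul]
          ring
        rw [h1, hg, hh]
        ext i j
        fin_cases i <;> fin_cases j <;> simp [Matrix.mul_apply, Fin.sum_univ_two] <;> ring }

theorem rho1_inj : Function.Injective (rho1 (K := K)) := by
  intro g h hgh
  obtain ⟨a, b, hg⟩ := a1_form g
  obtain ⟨a', b', hh⟩ := a1_form h
  have h2 : !![(g Polynomial.X).coeff 1, 0; (g Polynomial.X).coeff 0, (1 : K)] =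
      !![(h Polynomial.X).coeff 1, 0; (h Polynomial.X).coeff 0, 1] := congrArg Units.val hgh
  have e0 := congrFun (congrFun h2 0) 0
  have e1 := congrFun (congrFun h2 1) 0
  rw [hg, hh] at e0 e1
  simp at e0 e1
  apply AlgEquiv.ext
  intro P
  rw [a1_comp, a1_comp h, hg, hh, e0, e1]

theorem ex_A1 (K : Type) [Field K] : Ex (A1 K) := Ex.of_injective (MEx.field K 2) rho1 rho1_inj

theorem ex_one (K : Type) [Field K] : Ex (An (Fin 1) K) := by
  have e : An (Fin 1) K ≃* A1 K := AlgEquiv.autCongr (MvPolynomial.uniqueAlgEquiv K (Fin 1))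
  exact (Ex.equiv e).2 (ex_A1 K)

/-- the automorphisms of `R[x]` over `R` form an exact group -/
theorem ex_autOne (R : Type) [CommRing R] : Ex (An (Fin 1) R) := by
  have h := ex_FT (σ := Fin 1) (fun K _ => (⊤ : Subgroup (An (Fin 1) K)))
    (fun K _ _ => (ex_one K).subgroup _) R
  refine Ex.of_injective h (MonoidHom.codRestrict (MonoidHom.id _) _ fun g K _ _ f => Subgroup.mem_top _) ?_
  intro a b hab
  exact congrArg Subtype.val hab

end

end Pool.Agent.U293.EP
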