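import Pool.Agent.U293.EP.Tree3
import Pool.Agent.U293.PA.Solv
import Pool.Agent.U293.PA.Acyl
import Pool.Agent.U293.PA.Fin
import Pool.Agent.N506.EXF
import Pool.Agent.N506.EXC

/-!
# The tame automorphism group of the affine plane over a field is exact
-/

set_option autoImplicit false

namespace Pool.Agent.U293.EP

open Pool.Agent.N506.EX MvPolynomial Pool.Agent.U293.PA

/-- in a tree each edge joins a vertex and its parent -/
theorem exists_par {V : Type} (T : SimpleGraph V) (hT : T.IsTree) :
    ∃ par : V → V, ∀ x y, T.Adj x y → y = par x ∨ x = par y := by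
  classical
  obtain ⟨r⟩ := hT.connected.nonempty
  have hex : ∀ x, ∃ p : T.Walk x r, p.IsPath := fun x => (hT.existsUnique_path x r).exists
  choose f hf using hex
  have huniq : ∀ {x : V} (p : T.Walk x r), p.IsPath → p = f x := by
    intro x p hp
    exact (hT.existsUnique_path x r).unique hp (hf x)
  refine ⟨fun x => (f x).snd, fun x y h => ?_⟩
  by_cases hx : x ∈ (f y).support
  · right
    have h1 : ((f y).takeUntil x hx).IsPath := (hf y).takeUntil hx
    have h2 : (SimpleGraph.Walk.cons h.symm SimpleGraph.Walk.nil : T.Walk y x).IsPath := by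
      rw [SimpleGraph.Walk.cons_isPath_iff]
      refine ⟨SimpleGraph.Walk.IsPath.nil, ?_⟩
      simp only [SimpleGraph.Walk.support_nil, List.mem_singleton]
      exact h.ne'
    have h3 := (hT.existsUnique_path y x).unique h1 h2
    have h4 : ((f y).takeUntil x hx).snd = (f y).snd := SimpleGraph.Walk.snd_takeUntil h.ne _ _
    change x = (f y).snd
    rw [← h4, h3]
    simp
  · left
    have h1 : (SimpleGraph.Walk.cons h (f y)).IsPath → y = (f x).snd := by
      intro hp
      rw [← huniq _ hp]
      simp
    exact h1 (by rw [SimpleGraph.Walk.cons_isPath_iff]; exact ⟨hf y, hx⟩)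

/-- **Groups acting on trees with exact vertex stabilizers are exact.** -/
theorem ex_of_tree {G V : Type} [Group G] [MulAction G V] (T : SimpleGraph V) (hT : T.IsTree)
    (hact : ∀ (g : G) (x y : V), T.Adj x y → T.Adj (g • x) (g • y))
    (hst : ∀ v : V, Ex (MulAction.stabilizer G v)) : Ex G := by
  obtain ⟨par, hpar⟩ := exists_par T hT
  exact ex_of_parent T hT.connected par hpar hact hst

variable {K : Type} [Field K]

/-- the linear representation of the affine group -/
noncomputable def rhoM (g : Au K) : Matrix (Fin 3) (Fin 3) K :=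
  !![(g (X 0)).coeff (Finsupp.single 0 1), (g (X 1)).coeff (Finsupp.single 0 1), 0;
     (g (X 0)).coeff (Finsupp.single 1 1), (g (X 1)).coeff (Finsupp.single 1 1), 0;
     (g (X 0)).coeff 0, (g (X 1)).coeff 0, 1]

theorem co (a b e : K) :
    (C a * X 0 + C b * X 1 + C e : Rg K).coeff (Finsupp.single 0 1) = a ∧
    (C a * X 0 + C b * X 1 + C e : Rg K).coeff (Finsupp.single 1 1) = b ∧
    (C a * X 0 + C b * X 1 + C e : Rg K).coeff 0 = e := by
  have h01 : (Finsupp.single (0 : Fin 2) 1 : Fin 2 →₀ ℕ) ≠ Finsupp.single 1 1 := by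
    intro h
    have := DFunLike.congr_fun h 0
    simp at this
  have h00 : ∀ i : Fin 2, (0 : Fin 2 →₀ ℕ) ≠ Finsupp.single i 1 := by
    intro i h
    have := DFunLike.congr_fun h i
    simp at this
  refine ⟨?_, ?_, ?_⟩
  · simp [coeff_C_mul, coeff_X, coeff_C, h01.symm, h00 0]
  · simp [coeff_C_mul, coeff_X, coeff_C, h01, h00 1]
  · simp [coeff_C_mul, coeff_X, coeff_C]

theorem rhoM_eq {g : Au K} {a b c d e f : K} (h0 : g (X 0) = C a * X 0 + C b * X 1 + C e)
    (h1 : g (X 1) = C c * X 0 + C d * X 1 + C f) : rhoM g = !![a, c, 0; b, d, 0; e, f, 1] := by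
  unfold rhoM
  rw [h0, h1, (co a b e).1, (co a b e).2.1, (co a b e).2.2, (co c d f).1, (co c d f).2.1,
    (co c d f).2.2]

/-- the linear representation of the affine group -/
noncomputable def rho : ↥(affG (⊤ : Subfield K)) →* (Matrix (Fin 3) (Fin 3) K)ˣ :=
  MonoidHom.toHomUnits
    { toFun := fun g => rhoM (g : Au K)
      map_one' := by
        have h0 : ((1 : Au K)) (X 0) = C 1 * X 0 + C 0 * X 1 + C 0 := by simp
        have h1 : ((1 : Au K)) (X 1) = C 0 * X 0 + C 1 * X 1 + C 0 := by simp
        have := rhoM_eq h0 h1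
        rw [Subgroup.coe_one, this]
        ext i j
        fin_cases i <;> fin_cases j <;> simp
      map_mul' := by
        rintro ⟨g, hg⟩ ⟨h, hh⟩
        obtain ⟨a, b, c, d, e, f, h0, h1⟩ := aff_top.1 hg
        obtain ⟨a', b', c', d', e', f', h0', h1'⟩ := aff_top.1 hh
        have k0 : (g * h) (X 0) = C (a' * a + b' * c) * X 0 + C (a' * b + b' * d) * X 1 +
            C (a' * e + b' * f + e') := by
          rw [AlgEquiv.mul_apply, h0', map_add, map_add, map_mul, map_mul, gC, gC, gC, h0, h1]
          simp only [C_add, C_mul]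
          ring
        have k1 : (g * h) (X 1) = C (c' * a + d' * c) * X 0 + C (c' * b + d' * d) * X 1 +
            C (c' * e + d' * f + f') := by
          rw [AlgEquiv.mul_apply, h1', map_add, map_add, map_mul, map_mul, gC, gC, gC, h0, h1]
          simp only [C_add, C_mul]
          ring
        change rhoM (g * h) = rhoM g * rhoM h
        rw [rhoM_eq k0 k1, rhoM_eq h0 h1, rhoM_eq h0' h1']
        ext i j
        fin_cases i <;> fin_cases j <;> simp [Matrix.mul_apply, Fin.sum_univ_three] <;> ring }

theorem rho_inj : Function.Injective (rho (K := K)) := by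
  rintro ⟨g, hg⟩ ⟨h, hh⟩ hgh
  obtain ⟨a, b, c, d, e, f, h0, h1⟩ := aff_top.1 hg
  obtain ⟨a', b', c', d', e', f', h0', h1'⟩ := aff_top.1 hh
  have h2 : rhoM g = rhoM h := congrArg Units.val hgh
  rw [rhoM_eq h0 h1, rhoM_eq h0' h1'] at h2
  have e00 := congrFun (congrFun h2 0) 0
  have e01 := congrFun (congrFun h2 0) 1
  have e10 := congrFun (congrFun h2 1) 0
  have e11 := congrFun (congrFun h2 1) 1
  have e20 := congrFun (congrFun h2 2) 0
  have e21 := congrFun (congrFun h2 2) 1
  simp at e00 e01 e10 e11 e20 e21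
  apply Subtype.ext
  apply ext_of
  · rw [h0, h0', e00, e10, e20]
  · rw [h1, h1', e01, e11, e21]

theorem ex_aff : Ex ↥(affG (⊤ : Subfield K)) := Ex.of_injective (MEx.field K 3) rho rho_inj

theorem ex_tri : Ex ↥(triG (⊤ : Subfield K)) := by
  have := tri_solvable (K := K)
  exact (Am.of_solvable (G := ↥(triG (⊤ : Subfield K)))).ex

variable {A B : Subgroup (Au K)}

theorem ex_stabA (hA : Ex A) (g : GG A B) : Ex ↥(MulAction.stabilizer (GG A B) (vA A B g)) := by
  let f : ↥(MulAction.stabilizer (GG A B) (vA A B g)) →* A :=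
    { toFun := fun x => ⟨(g : Au K)⁻¹ * ((x : GG A B) : Au K) * (g : Au K), fixA x.2⟩
      map_one' := by
        apply Subtype.ext
        simp
      map_mul' := fun x y => by
        apply Subtype.ext
        simp only [Subgroup.coe_mul]
        group }
  refine Ex.of_injective hA f ?_
  intro x y hxy
  have h1 := congrArg Subtype.val hxy
  have h2 : (g : Au K)⁻¹ * ((x : GG A B) : Au K) * (g : Au K) =
      (g : Au K)⁻¹ * ((y : GG A B) : Au K) * (g : Au K) := h1
  have h3 := mul_left_cancel (mul_right_cancel h2)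
  exact Subtype.ext (Subtype.ext h3)

theorem ex_stabB (hB : Ex B) (g : GG A B) : Ex ↥(MulAction.stabilizer (GG A B) (vB A B g)) := by
  let f : ↥(MulAction.stabilizer (GG A B) (vB A B g)) →* B :=
    { toFun := fun x => ⟨(g : Au K)⁻¹ * ((x : GG A B) : Au K) * (g : Au K), fixB x.2⟩
      map_one' := by
        apply Subtype.ext
        simp
      map_mul' := fun x y => by
        apply Subtype.ext
        simp only [Subgroup.coe_mul]
        group }
  refine Ex.of_injective hB f ?_
  intro x y hxy
  have h1 := congrArg Subtype.val hxy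
  have h2 : (g : Au K)⁻¹ * ((x : GG A B) : Au K) * (g : Au K) =
      (g : Au K)⁻¹ * ((y : GG A B) : Au K) * (g : Au K) := h1
  have h3 := mul_left_cancel (mul_right_cancel h2)
  exact Subtype.ext (Subtype.ext h3)

/-- the tame automorphism group of the plane over a field is exact -/
theorem ex_tame (K : Type) [Field K] : Ex ↥(Tame K) := by
  refine ex_of_tree (G := GG (affG (⊤ : Subfield K)) (triG ⊤)) (tr (affG ⊤) (triG ⊤))
    (tr_tree (pair_of ⊤)) (fun g u v h => tr_act g u v h) fun v => ?_
  rcases cases_v v with ⟨g, rfl⟩ | ⟨g, rfl⟩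
  · exact ex_stabA ex_aff g
  · exact ex_stabB ex_tri g

end Pool.Agent.U293.EP
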