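import Pool.Agent.N506.EXL

/-!
# Groups acting on trees with exact stabilizers are exact

The statement is proved for a connected graph with a parent function `par`: every edge joins a vertex
and its parent. Trees are of this form.
-/

set_option autoImplicit false

namespace Pool.Agent.U293.EP

open Pool.Agent.N506.EX

/-- a finite family of exact groups with finite sets has a common sample space -/
theorem common {ι : Type} (S : Finset ι) (H : ι → Type) [∀ i, Group (H i)] (hH : ∀ i, Ex (H i))
    (F : ∀ i, Set (H i)) (hF : ∀ i, (F i).Finite) (ε : ℝ) (hε : 0 < ε) :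
    ∃ (Ω : Type) (_ : Fintype Ω) (_ : Nonempty Ω), ∀ i, ∃ (E : Set (H i)) (Y : Type)
      (a : H i → Ω → Y), E.Finite ∧ (i ∈ S →
        (∀ g, ∀ s ∈ F i, ∃ (W : Finset Ω) (p : Ω → Ω), Set.InjOn p W ∧
          (∀ w ∈ W, a g w = a (g * s) (p w)) ∧ (1 - ε) * (Fintype.card Ω : ℝ) ≤ (W.card : ℝ)) ∧
        ∀ g h w w', a g w = a h w' → g⁻¹ * h ∈ E) := by
  classical
  induction S using Finset.induction_on with
  | empty =>
    exact ⟨Unit, inferInstance, inferInstance, fun i =>
      ⟨∅, Unit, fun _ _ => (), Set.finite_empty, fun h => absurd h (Finset.notMem_empty _)⟩⟩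
  | insert j S hj ih =>
    obtain ⟨Ω, _, _, h⟩ := ih
    obtain ⟨E', hE', Ω', _, _, Y', a', h1', h2'⟩ := hH j (F j) (hF j) ε hε
    refine ⟨Ω × Ω', inferInstance, inferInstance, fun i => ?_⟩
    by_cases hi : i = j
    · subst hi
      refine ⟨E', Y', fun g w => a' g w.2, hE', fun _ => ⟨?_, ?_⟩⟩
      · intro g s hs
        obtain ⟨W, p, hp, hW, hc⟩ := h1' g s hs
        refine ⟨Finset.univ ×ˢ W, fun w => (w.1, p w.2), ?_, ?_, ?_⟩
        · intro x hx y hy hxy
          simp only [Finset.coe_product, Set.mem_prod, Finset.mem_coe] at hx hy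
          simp only [Prod.mk.injEq] at hxy
          exact Prod.ext hxy.1 (hp hx.2 hy.2 hxy.2)
        · intro w hw
          rw [Finset.mem_product] at hw
          exact hW _ hw.2
        · rw [Fintype.card_prod, Finset.card_product, Finset.card_univ]
          push_cast
          have : (0:ℝ) ≤ Fintype.card Ω := Nat.cast_nonneg _
          nlinarith
      · intro g h' w w' hh
        exact h2' g h' _ _ hh trivial
    · obtain ⟨E, Y, a, hE, hh⟩ := h i
      refine ⟨E, Y, fun g w => a g w.1, hE, fun hi2 => ?_⟩
      obtain ⟨h1, h2⟩ := hh ((Finset.mem_insert.1 hi2).resolve_left hi)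
      refine ⟨?_, fun g h' w w' h3 => h2 g h' _ _ h3⟩
      intro g s hs
      obtain ⟨W, p, hp, hW, hc⟩ := h1 g s hs
      refine ⟨W ×ˢ Finset.univ, fun w => (p w.1, w.2), ?_, ?_, ?_⟩
      · intro x hx y hy hxy
        simp only [Finset.coe_product, Set.mem_prod, Finset.mem_coe] at hx hy
        simp only [Prod.mk.injEq] at hxy
        exact Prod.ext (hp hx.1 hy.1 hxy.1) hxy.2
      · intro w hw
        rw [Finset.mem_product] at hw
        exact hW _ hw.1
      · rw [Fintype.card_prod, Finset.card_product, Finset.card_univ]
        push_cast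
        have : (0:ℝ) ≤ Fintype.card Ω' := Nat.cast_nonneg _
        nlinarith

/-- two vertices joined by a walk have a common ancestor, and the ways to it are contained in the walk -/
theorem merge {V : Type} (T : SimpleGraph V) (par : V → V)
    (hpar : ∀ x y, T.Adj x y → y = par x ∨ x = par y) {u v : V} (w : T.Walk u v) :
    ∃ p q : ℕ, p + q ≤ w.length ∧ par^[p] u = par^[q] v ∧
      (∀ i ≤ p, par^[i] u ∈ w.support) ∧ (∀ i ≤ q, par^[i] v ∈ w.support) := by
  induction w with
  | nil =>
    refine ⟨0, 0, by simp, rfl, ?_, ?_⟩
    · intro i hi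
      rw [Nat.le_zero.1 hi]
      simp
    · intro i hi
      rw [Nat.le_zero.1 hi]
      simp
  | @cons a b c hab w ih =>
    obtain ⟨p, q, hpq, he, hp, hq⟩ := ih
    have hq' : ∀ i ≤ q, par^[i] c ∈ (SimpleGraph.Walk.cons hab w).support := by
      intro i hi
      rw [SimpleGraph.Walk.support_cons]
      exact List.mem_cons_of_mem _ (hq i hi)
    have h0 : a ∈ (SimpleGraph.Walk.cons hab w).support := SimpleGraph.Walk.start_mem_support _
    rcases hpar a b hab with h | h
    · refine ⟨p + 1, q, by rw [SimpleGraph.Walk.length_cons]; omega, ?_, ?_, hq'⟩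
      · rw [Function.iterate_succ_apply, ← h, he]
      · intro i hi
        rcases Nat.eq_zero_or_pos i with h1 | h1
        · subst h1
          exact h0
        · obtain ⟨j, rfl⟩ : ∃ j, i = j + 1 := ⟨i - 1, by omega⟩
          rw [Function.iterate_succ_apply, ← h, SimpleGraph.Walk.support_cons]
          exact List.mem_cons_of_mem _ (hp j (by omega))
    · rcases Nat.eq_zero_or_pos p with h1 | h1
      · subst h1
        refine ⟨0, q + 1, by rw [SimpleGraph.Walk.length_cons]; omega, ?_, ?_, ?_⟩
        · rw [Function.iterate_succ_apply', ← he]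
          exact h
        · intro i hi
          rw [Nat.le_zero.1 hi]
          exact h0
        · intro i hi
          rcases Nat.lt_or_ge q i with h2 | h2
          · have h3 : i = q + 1 := by omega
            rw [h3, Function.iterate_succ_apply', ← he]
            simp only [Function.iterate_zero, id]
            rw [← h]
            exact h0
          · exact hq' i h2
      · obtain ⟨p', rfl⟩ : ∃ j, p = j + 1 := ⟨p - 1, by omega⟩
        refine ⟨p', q, by rw [SimpleGraph.Walk.length_cons]; omega, ?_, ?_, hq'⟩
        · rw [h, ← Function.iterate_succ_apply, he]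
        · intro i hi
          rcases Nat.eq_zero_or_pos i with h3 | h3
          · subst h3
            exact h0
          · have e2 : par^[i] a = par^[i + 1] b := by rw [Function.iterate_succ_apply, ← h]
            rw [e2, SimpleGraph.Walk.support_cons]
            exact List.mem_cons_of_mem _ (hp (i + 1) (by omega))

/-- a bounded monotone sequence of natural numbers changes rarely -/
theorem few_changes (f : ℕ → ℕ) (hf : Monotone f) (L : ℕ) (hL : ∀ k, f k ≤ L) (N : ℕ) :
    ((Finset.range N).filter (fun k => f k ≠ f (k + 2))).card ≤ 2 * L := by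
  have key : ∀ N, ((Finset.range N).filter (fun k => f k ≠ f (k + 2))).card + f 0 + f 1 ≤
      f N + f (N + 1) := by
    intro N
    induction N with
    | zero => simp
    | succ N ih =>
      rw [Finset.range_add_one, Finset.filter_insert]
      have h1 : f N ≤ f (N + 2) := hf (by omega)
      have e : N + 1 + 1 = N + 2 := rfl
      rw [e]
      split_ifs with h
      · rw [Finset.card_insert_of_notMem (by simp)]
        have : f N < f (N + 2) := lt_of_le_of_ne h1 h
        omega
      · omega
  have := key N
  have h1 := hL N
  have h2 := hL (N + 1)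
  omega

end Pool.Agent.U293.EP
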