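import Pool.Agent.U293.EP.Tree

/-!
# Groups acting on trees with exact stabilizers are exact: the proof
-/

set_option autoImplicit false

namespace Pool.Agent.U293.EP

open Pool.Agent.N506.EX

/-- matching the truncated paths of two vertices -/
theorem match_abs {V : Type} (P P' : ℕ → ℕ → Prop) (T T' : ℕ → ℕ) (L n R p q : ℕ) (hL : L = n + R)
    (hpq : p + q ≤ R) (hT : ∀ k j, j ≤ L → (j ≤ T k ↔ P k j)) (hT' : ∀ k j, j ≤ L → (j ≤ T' k ↔ P' k j))
    (hTL : ∀ k, T k ≤ L) (hTL' : ∀ k, T' k ≤ L) (hp : ∀ k, P k p)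
    (hA : ∀ k i, P k (p + i) → P' (k + 1) (q + i)) (hB : ∀ k i, P' k (q + i) → P (k + 1) (p + i))
    (c c' : ℕ → V) (hc : ∀ i, c (p + i) = c' (q + i)) (hm : Monotone T) (k : ℕ)
    (hk : T k = T (k + 2)) (i : ℕ) (hi : p ≤ i) (hin : i < n) (hin' : i - p + q < n) :
    c (min i (T (k + 1))) = c' (min (i - p + q) (T' (k + 1))) := by
  have h1 : T (k + 1) = T k := le_antisymm (by rw [hk]; exact hm (by omega)) (hm (by omega))
  have hpT : p ≤ T k := (hT k p (by omega)).2 (hp k)
  rw [h1]
  rcases Nat.lt_or_ge (T k) i with h | h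
  · rw [min_eq_right h.le]
    have h2 : P' (k + 1) (q + (T k - p)) := by
      apply hA
      have e : p + (T k - p) = T k := by omega
      rw [e]
      exact (hT k _ (hTL k)).1 le_rfl
    have h3 : q + (T k - p) ≤ T' (k + 1) := (hT' _ _ (by omega)).2 h2
    have h4 : ¬ q + (T k - p) + 1 ≤ T' (k + 1) := by
      intro h5
      have h6 : P' (k + 1) (q + (T k - p + 1)) := by
        rw [← add_assoc]
        exact (hT' _ _ (h5.trans (hTL' _))).1 h5
      have h7 := hB _ _ h6
      have e : p + (T k - p + 1) = T k + 1 := by omega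
      rw [e] at h7
      have h8 := (hT (k + 2) (T k + 1) (by omega)).2 h7
      omega
    have h5 : T' (k + 1) = q + (T k - p) := by omega
    rw [h5, min_eq_right (by omega), ← hc]
    congr 1
    omega
  · rw [min_eq_left h]
    have h2 : P' (k + 1) (q + (i - p)) := by
      apply hA
      have e : p + (i - p) = i := by omega
      rw [e]
      exact (hT k _ (by omega)).1 h
    have h3 : q + (i - p) ≤ T' (k + 1) := (hT' _ _ (by omega)).2 h2
    rw [min_eq_left (by omega), add_comm (i - p) q, ← hc]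
    congr 1
    omega

section

variable {G V : Type} [Group G] [MulAction G V]

/-- the finite sets of vertices -/
def Fk (F' : Set G) (F0 : Set V) : ℕ → Set V
  | 0 => F0
  | k + 1 => Set.image2 (fun (g : G) (v : V) => g • v) F' (Fk F' F0 k)

theorem Fk_fin {F' : Set G} {F0 : Set V} (h1 : F'.Finite) (h2 : F0.Finite) (k : ℕ) :
    (Fk F' F0 k).Finite := by
  induction k with
  | zero => exact h2
  | succ k ih => exact Set.Finite.image2 _ h1 ih

theorem Fk_smul {F' : Set G} {F0 : Set V} {k : ℕ} {s : G} {v : V} (hs : s ∈ F')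
    (hv : v ∈ Fk F' F0 k) : s • v ∈ Fk F' F0 (k + 1) := ⟨s, hs, v, hv, rfl⟩

theorem Fk_mono {F' : Set G} {F0 : Set V} (h1 : (1 : G) ∈ F') : Monotone (Fk F' F0) := by
  apply monotone_nat_of_le_succ
  intro k v hv
  have := Fk_smul h1 hv
  rwa [one_smul] at this

/-- the vertex of `V` representing the orbit of `v` -/
noncomputable def rep (G : Type) {V : Type} [Group G] [MulAction G V] (v : V) : V :=
  (Quotient.mk (MulAction.orbitRel G V) v).out

theorem rep_smul (g : G) (v : V) : rep G (g • v) = rep G v := by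
  unfold rep
  congr 1
  exact Quotient.sound (MulAction.orbitRel_apply.2 ⟨g, rfl⟩)

theorem exists_r (v : V) : ∃ r : G, r • rep G v = v := by
  have h : (MulAction.orbitRel G V).r (rep G v) v :=
    Quotient.exact (Quotient.out_eq (Quotient.mk (MulAction.orbitRel G V) v))
  obtain ⟨g, hg⟩ := MulAction.orbitRel_apply.1 h
  refine ⟨g⁻¹, ?_⟩
  rw [← hg]
  exact inv_smul_smul g v

/-- an element moving the representative to `v` -/
noncomputable def rr (v : V) : G := (exists_r (G := G) v).choose

theorem rr_spec (v : V) : (rr v : G) • rep G v = v := (exists_r (G := G) v).choose_spec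

/-- the element of the stabilizer of the representative of `v` given by `g` -/
noncomputable def kap (g : G) (v : V) : MulAction.stabilizer G (rep G v) :=
  ⟨(rr v)⁻¹ * g * rr (g⁻¹ • v), by
    rw [MulAction.mem_stabilizer_iff, mul_smul, mul_smul]
    have h1 : (rr (g⁻¹ • v) : G) • rep G v = g⁻¹ • v := by
      conv_lhs => rw [← rep_smul g⁻¹ v]
      exact rr_spec _
    rw [h1, smul_inv_smul]
    conv_lhs => arg 2; rw [← rr_spec (G := G) v]
    exact inv_smul_smul _ _⟩

theorem kap_val (g : G) (v : V) : ((kap g v : MulAction.stabilizer G (rep G v)) : G) =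
    (rr v)⁻¹ * g * rr (g⁻¹ • v) := rfl

theorem kap_mul (g s : G) (v : V) : (((kap g v)⁻¹ * kap (g * s) v :
    MulAction.stabilizer G (rep G v)) : G) = (rr (g⁻¹ • v))⁻¹ * s * rr (s⁻¹ • g⁻¹ • v) := by
  rw [Subgroup.coe_mul, Subgroup.coe_inv, kap_val, kap_val]
  have e : (g * s)⁻¹ • v = s⁻¹ • g⁻¹ • v := by rw [mul_inv_rev, mul_smul]
  rw [e]
  group

theorem kap_pair (g h : G) (v : V) : g⁻¹ * h = rr (g⁻¹ • v) *
    (((kap g v)⁻¹ * kap h v : MulAction.stabilizer G (rep G v)) : G) * (rr (h⁻¹ • v))⁻¹ := by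
  rw [Subgroup.coe_mul, Subgroup.coe_inv, kap_val, kap_val]
  group

end

end Pool.Agent.U293.EP
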