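import Pool.Agent.U293.EP.Tree2

/-!
# Groups acting on trees with exact stabilizers are exact: the theorem
-/

set_option autoImplicit false

namespace Pool.Agent.U293.EP

open Pool.Agent.N506.EX

theorem card_mid (n R : ℕ) : (n : ℝ) - 2 * R ≤
    ((Finset.univ.filter (fun i : Fin n => R ≤ i.val ∧ i.val + R < n)).card : ℝ) := by
  have h : (Finset.univ.filter (fun i : Fin n => R ≤ i.val ∧ i.val + R < n)).card =
      (Finset.Ico R (n - R)).card := by
    rw [← Finset.card_image_of_injective _ Fin.val_injective]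
    congr 1
    ext x
    simp only [Finset.mem_image, Finset.mem_filter, Finset.mem_univ, true_and, Finset.mem_Ico]
    constructor
    · rintro ⟨i, ⟨h1, h2⟩, rfl⟩
      omega
    · rintro ⟨h1, h2⟩
      exact ⟨⟨x, by omega⟩, ⟨h1, by simp only; omega⟩, rfl⟩
  rw [h, Nat.card_Ico]
  have : n ≤ (n - R - R) + 2 * R := by omega
  have h2 : (n : ℝ) ≤ ((n - R - R : ℕ) : ℝ) + 2 * R := by exact_mod_cast this
  linarith

theorem card_stab (f : ℕ → ℕ) (hf : Monotone f) (L : ℕ) (hL : ∀ k, f k ≤ L) (N : ℕ) :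
    (N : ℝ) - 2 * L ≤ ((Finset.univ.filter (fun k : Fin N => f k.val = f (k.val + 2))).card : ℝ) := by
  classical
  have h := few_changes f hf L hL N
  have h1 : (Finset.univ.filter (fun k : Fin N => f k.val = f (k.val + 2))).card =
      ((Finset.range N).filter (fun k => f k = f (k + 2))).card := by
    rw [← Finset.card_image_of_injective _ Fin.val_injective]
    congr 1
    ext x
    simp only [Finset.mem_image, Finset.mem_filter, Finset.mem_univ, true_and, Finset.mem_range]
    constructor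
    · rintro ⟨i, h1, rfl⟩
      exact ⟨i.2, h1⟩
    · rintro ⟨h1, h2⟩
      exact ⟨⟨x, h1⟩, h2, rfl⟩
  have h2 : ((Finset.range N).filter (fun k => f k = f (k + 2))).card +
      ((Finset.range N).filter (fun k => f k ≠ f (k + 2))).card = N := by
    have := Finset.card_filter_add_card_filter_not (s := Finset.range N) (fun k => f k = f (k + 2))
    rw [Finset.card_range] at this
    exact this
  rw [h1]
  have h3 : N ≤ ((Finset.range N).filter (fun k => f k = f (k + 2))).card + 2 * L := by omega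
  have h4 : (N : ℝ) ≤ (((Finset.range N).filter (fun k => f k = f (k + 2))).card : ℝ) + 2 * L := by
    exact_mod_cast h3
  linarith

/-- Let `G` act on a connected graph in which each edge joins a vertex and its parent (for instance a
tree), with exact vertex stabilizers. Then `G` is exact. -/
theorem ex_of_parent {G V : Type} [Group G] [MulAction G V] (T : SimpleGraph V)
    (hconn : T.Connected) (par : V → V) (hpar : ∀ x y, T.Adj x y → y = par x ∨ x = par y)
    (hact : ∀ (g : G) (x y : V), T.Adj x y → T.Adj (g • x) (g • y))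
    (hst : ∀ v : V, Ex (MulAction.stabilizer G v)) : Ex G := by
  classical
  obtain ⟨o⟩ := hconn.nonempty
  intro F hF ε hε
  have hw : ∀ g : G, Nonempty (T.Walk o (g • o)) := fun g => hconn.preconnected _ _
  let w : ∀ g : G, T.Walk o (g • o) := fun g => (hw g).some
  let F' : Set G := insert 1 (F ∪ F⁻¹)
  let Sp : G → Set V := fun s => {x | x ∈ (w s).support}
  let F0 : Set V := insert o (⋃ s ∈ F, (Sp s ∪ (fun x => s⁻¹ • x) '' Sp s))
  have hSp : ∀ s, (Sp s).Finite := fun s => List.finite_toSet _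
  have hF' : F'.Finite := (hF.union hF.inv).insert 1
  have hF0 : F0.Finite :=
    (hF.biUnion (fun s _ => (hSp s).union ((hSp s).image _))).insert o
  have h1F' : (1 : G) ∈ F' := Set.mem_insert _ _
  let A : ℕ → Set V := Fk F' F0
  have hAf : ∀ k, (A k).Finite := fun k => Fk_fin hF' hF0 k
  have hAm : Monotone A := Fk_mono h1F'
  have hA0 : ∀ k, F0 ⊆ A k := fun k => hAm (Nat.zero_le k)
  obtain ⟨R, hR⟩ : ∃ R : ℕ, ∀ s ∈ F, (w s).length ≤ R := by
    obtain ⟨R, hR⟩ := (hF.image (fun s => (w s).length)).bddAbove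
    exact ⟨R, fun s hs => hR ⟨s, hs, rfl⟩⟩
  -- the paths of `g o` and `g s o`
  have hm : ∀ g : G, ∀ s ∈ F, ∃ p q : ℕ, p + q ≤ R ∧ par^[p] (g • o) = par^[q] ((g * s) • o) ∧
      (∀ i ≤ p, g⁻¹ • par^[i] (g • o) ∈ F0) ∧
      (∀ i ≤ q, (g * s)⁻¹ • par^[i] ((g * s) • o) ∈ F0) := by
    intro g s hs
    let f : T →g T := ⟨fun x => g • x, fun {a b} h => hact g a b h⟩
    obtain ⟨p, q, hpq, he, hp, hq⟩ := merge T par hpar ((w s).map f)
    rw [SimpleGraph.Walk.length_map] at hpq
    have hsup : ∀ x, x ∈ ((w s).map f).support → g⁻¹ • x ∈ Sp s := by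
      intro x hx
      rw [SimpleGraph.Walk.support_map] at hx
      obtain ⟨y, hy, rfl⟩ := List.mem_map.1 hx
      change g⁻¹ • g • y ∈ Sp s
      rw [inv_smul_smul]
      exact hy
    refine ⟨p, q, hpq.trans (hR s hs), ?_, ?_, ?_⟩
    · rw [mul_smul]
      exact he
    · intro i hi
      refine Set.mem_insert_of_mem _ ?_
      simp only [Set.mem_iUnion]
      exact ⟨s, hs, Or.inl (hsup _ (hp i hi))⟩
    · intro i hi
      refine Set.mem_insert_of_mem _ ?_
      simp only [Set.mem_iUnion]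
      refine ⟨s, hs, Or.inr ⟨_, hsup _ (hq i hi), ?_⟩⟩
      rw [mul_inv_rev, mul_smul]
      congr 3
      rw [mul_smul]
      rfl
  -- the parameters
  obtain ⟨n, hn1, hn⟩ : ∃ n : ℕ, 1 ≤ n ∧ 2 * (R : ℝ) ≤ ε / 4 * n := by
    obtain ⟨n, hn⟩ := exists_nat_gt (2 * (R : ℝ) / (ε / 4))
    refine ⟨n + 1, by omega, ?_⟩
    rw [div_lt_iff₀ (by positivity)] at hn
    push_cast
    nlinarith
  let L : ℕ := n + R
  obtain ⟨N, hN1, hN⟩ : ∃ N : ℕ, 1 ≤ N ∧ 2 * (L : ℝ) ≤ ε / 4 * N := by
    obtain ⟨n, hn⟩ := exists_nat_gt (2 * (L : ℝ) / (ε / 4))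
    refine ⟨n + 1, by omega, ?_⟩
    rw [div_lt_iff₀ (by positivity)] at hn
    push_cast
    nlinarith
  -- the truncated lengths
  let P : G → ℕ → ℕ → Prop := fun g k j => ∀ i ≤ j, g⁻¹ • par^[i] (g • o) ∈ A k
  let Tk : G → ℕ → ℕ := fun g k => Nat.findGreatest (P g k) L
  have hP0 : ∀ g k, P g k 0 := by
    intro g k i hi
    rw [Nat.le_zero.1 hi]
    simp only [Function.iterate_zero, id, inv_smul_smul]
    exact hA0 k (Set.mem_insert _ _)
  have hTL : ∀ g k, Tk g k ≤ L := fun g k => Nat.findGreatest_le L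
  have hTP : ∀ g k, P g k (Tk g k) := fun g k => Nat.findGreatest_spec (Nat.zero_le _) (hP0 g k)
  have hT : ∀ g k j, j ≤ L → (j ≤ Tk g k ↔ P g k j) := by
    intro g k j hj
    constructor
    · intro h i hi
      exact hTP g k i (hi.trans h)
    · intro h
      exact Nat.le_findGreatest hj h
  have hPm : ∀ g k k' j, k ≤ k' → P g k j → P g k' j := fun g k k' j h hh i hi => hAm h (hh i hi)
  have hTm : ∀ g, Monotone (Tk g) := by
    intro g k k' h
    exact (hT g k' _ (hTL g k)).2 (hPm g k k' _ h (hTP g k))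
  -- the vertices
  let vt : G → ℕ → ℕ → V := fun g i k => par^[min i (Tk g (k + 1))] (g • o)
  have hvt : ∀ g i k, g⁻¹ • vt g i k ∈ A (k + 1) := fun g i k => hTP g (k + 1) _ (min_le_right _ _)
  have hmatch : ∀ g, ∀ s ∈ F, ∃ p q : ℕ, p + q ≤ R ∧ ∀ i k, Tk g k = Tk g (k + 2) → p ≤ i → i < n →
      i - p + q < n → vt g i k = vt (g * s) (i - p + q) k := by
    intro g s hs
    obtain ⟨p, q, hpq, he, hp, hq⟩ := hm g s hs
    have hc : ∀ i, par^[p + i] (g • o) = par^[q + i] ((g * s) • o) := by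
      intro i
      rw [add_comm p i, add_comm q i, Function.iterate_add_apply, Function.iterate_add_apply, he]
    refine ⟨p, q, hpq, fun i k hk hi hin hin' => ?_⟩
    refine match_abs (P g) (P (g * s)) (Tk g) (Tk (g * s)) L n R p q rfl hpq (hT g) (hT _) (hTL g)
      (hTL _) (fun k i hi => hA0 k (hp i hi)) ?_ ?_ (fun i => par^[i] (g • o))
      (fun i => par^[i] ((g * s) • o)) hc (hTm g) k hk i hi hin hin'
    · intro k i hPk j hj
      rcases le_or_gt j q with h | h
      · exact hA0 _ (hq j h)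
      · obtain ⟨m, rfl⟩ : ∃ m, j = q + m := ⟨j - q, by omega⟩
        rw [← hc, mul_inv_rev, mul_smul]
        exact Fk_smul (Set.mem_insert_of_mem _ (Or.inr (Set.inv_mem_inv.2 hs)))
          (hPk (p + m) (by omega))
    · intro k i hPk j hj
      rcases le_or_gt j p with h | h
      · exact hA0 _ (hp j h)
      · obtain ⟨m, rfl⟩ : ∃ m, j = p + m := ⟨j - p, by omega⟩
        have h1 : s • (g * s)⁻¹ • par^[q + m] ((g * s) • o) ∈ A (k + 1) :=
          Fk_smul (Set.mem_insert_of_mem _ (Or.inl hs)) (hPk (q + m) (by omega))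
        rw [← hc, mul_inv_rev, mul_smul, smul_inv_smul] at h1
        exact h1
  -- the second stage
  let M : Set G := Set.image2 (fun (s : G) (u : V) => (rr u : G)⁻¹ * s * rr (s⁻¹ • u)) F (A (N + 1))
  have hM : M.Finite := Set.Finite.image2 _ hF (hAf _)
  let S : Finset V := ((hAf (N + 1)).image (rep G)).toFinset
  obtain ⟨Ω, _, _, hΩ⟩ := common S (fun v => MulAction.stabilizer G v) hst
    (fun v => {z | (z : G) ∈ M}) (fun v => hM.preimage Subtype.val_injective.injOn) (ε / 2)
    (by positivity)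
  choose E Y a hE hS using hΩ
  have hrepS : ∀ g i k, k < N → rep G (vt g i k) ∈ S := by
    intro g i k hk
    rw [Set.Finite.mem_toFinset]
    refine ⟨g⁻¹ • vt g i k, hAm (by omega) (hvt g i k), rep_smul _ _⟩
  let ψ : G → V → Ω → (Σ v : V, Y (rep G v)) := fun g v ω => ⟨v, a (rep G v) (kap g v) ω⟩
  let Ω₁ : Type := Σ _ : Fin n × Fin N, Ω
  refine ⟨Set.image2 (fun (u : V) (u' : V) => (u, u')) (A (N + 1)) (A (N + 1)) |>.image2
    (fun (x : V × V) (e : G) => rr x.1 * e * (rr x.2)⁻¹)
    (⋃ v ∈ (S : Set V), (fun z : MulAction.stabilizer G v => (z : G)) '' E v), ?_, ?_⟩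
  · refine Set.Finite.image2 _ (Set.Finite.image2 _ (hAf _) (hAf _)) ?_
    exact Set.Finite.biUnion S.finite_toSet fun v _ => (hE v).image _
  have : Nonempty (Fin n × Fin N) := ⟨(⟨0, by omega⟩, ⟨0, by omega⟩)⟩
  have : Nonempty Ω₁ := ⟨⟨Classical.arbitrary _, Classical.arbitrary _⟩⟩
  refine Wf.of Ω₁ (Σ v : V, Y (rep G v)) (fun g x => ψ g (vt g x.1.1.val x.1.2.val) x.2) ?_ ?_
  · intro g s hs
    obtain ⟨p, q, hpq, hmt⟩ := hmatch g s hs
    -- the second stage for each vertex
    have h2 : ∀ v : V, rep G v ∈ S → g⁻¹ • v ∈ A (N + 1) →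
        ∃ (W : Finset Ω) (pp : Ω → Ω), Set.InjOn pp W ∧
        (∀ ω ∈ W, ψ g v ω = ψ (g * s) v (pp ω)) ∧ (1 - ε / 2) * (Fintype.card Ω : ℝ) ≤ (W.card : ℝ) := by
      intro v hv hgv
      have hz : (kap g v)⁻¹ * kap (g * s) v ∈ {z : MulAction.stabilizer G (rep G v) | (z : G) ∈ M} := by
        change (((kap g v)⁻¹ * kap (g * s) v : MulAction.stabilizer G (rep G v)) : G) ∈ M
        rw [kap_mul]
        exact ⟨s, hs, g⁻¹ • v, hgv, rfl⟩
      obtain ⟨W, pp, h1, h2, h3⟩ := (hS (rep G v) hv).1 (kap g v) _ hz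
      refine ⟨W, pp, h1, fun ω hω => ?_, h3⟩
      have h4 := h2 ω hω
      rw [mul_inv_cancel_left] at h4
      simp only [ψ, h4]
    let good : Fin n × Fin N → Prop := fun x => rep G (vt g x.1.val x.2.val) ∈ S ∧
      g⁻¹ • vt g x.1.val x.2.val ∈ A (N + 1)
    have hgood : ∀ x, good x := fun x => ⟨hrepS _ _ _ x.2.2, hAm (by have := x.2.2; omega) (hvt _ _ _)⟩
    choose W pp hW1 hW2 hW3 using fun x : Fin n × Fin N => h2 (vt g x.1.val x.2.val) (hgood x).1 (hgood x).2
    let sh : Fin n → Fin n := fun i => if h : i.val - p + q < n then ⟨i.val - p + q, h⟩ else i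
    let I : Finset (Fin n) := Finset.univ.filter (fun i : Fin n => R ≤ i.val ∧ i.val + R < n)
    let J : Finset (Fin N) := Finset.univ.filter (fun k : Fin N => Tk g k.val = Tk g (k.val + 2))
    have hsh : ∀ i ∈ I, (sh i).val = i.val - p + q ∧ p ≤ i.val := by
      intro i hi
      have hi' := (Finset.mem_filter.1 hi).2
      have h : i.val - p + q < n := by omega
      simp only [sh, dif_pos h]
      exact ⟨trivial, by omega⟩
    refine ⟨(I ×ˢ J).sigma W, fun x => ⟨(sh x.1.1, x.1.2), pp x.1 x.2⟩, ?_, ?_, ?_⟩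
    · rintro ⟨⟨i, k⟩, ω⟩ hx ⟨⟨i', k'⟩, ω'⟩ hy hxy
      replace hx := Finset.mem_sigma.1 (Finset.mem_coe.1 hx)
      replace hy := Finset.mem_sigma.1 (Finset.mem_coe.1 hy)
      rw [Finset.mem_product] at hx hy
      rw [Sigma.mk.injEq, Prod.mk.injEq] at hxy
      obtain ⟨⟨h1, h2⟩, h3⟩ := hxy
      have h4 := eq_of_heq h3
      obtain rfl : k = k' := h2
      have h5 : i = i' := by
        have e1 := hsh i hx.1.1
        have e2 := hsh i' hy.1.1
        have e3 : (sh i).val = (sh i').val := congrArg Fin.val h1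
        apply Fin.ext
        omega
      subst h5
      have h6 : ω = ω' := hW1 (i, k) (Finset.mem_coe.2 hx.2) (Finset.mem_coe.2 hy.2) h4
      rw [h6]
    · rintro ⟨⟨i, k⟩, ω⟩ hx
      replace hx := Finset.mem_sigma.1 hx
      rw [Finset.mem_product] at hx
      have h1 := (Finset.mem_filter.1 hx.1.2).2
      have hi := (Finset.mem_filter.1 hx.1.1).2
      have h2 := hsh i hx.1.1
      have h3 := hmt i.val k.val h1 h2.2 i.2 (by omega)
      have h4 := hW2 (i, k) ω hx.2
      change ψ g (vt g i.val k.val) ω = ψ (g * s) (vt (g * s) (sh i).val k.val) (pp (i, k) ω)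
      rw [h2.1, ← h3]
      exact h4
    · rw [Finset.card_sigma]
      have hcard : (Fintype.card Ω₁ : ℝ) = n * N * Fintype.card Ω := by
        have : Fintype.card Ω₁ = n * N * Fintype.card Ω := by
          simp only [Ω₁]
          rw [Fintype.card_sigma]
          simp
        rw [this]
        push_cast
        ring
      rw [hcard]
      have hI := card_mid n R
      have hJ := card_stab (Tk g) (hTm g) L (hTL g) N
      have hI2 : ((I.card : ℕ) : ℝ) ≤ n := by
        have : I.card ≤ n := by simpa using Finset.card_le_univ I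
        exact_mod_cast this
      have hJ2 : ((J.card : ℕ) : ℝ) ≤ N := by
        have : J.card ≤ N := by simpa using Finset.card_le_univ J
        exact_mod_cast this
      have hO : (0 : ℝ) ≤ Fintype.card Ω := Nat.cast_nonneg _
      have hsum : ((I.card : ℝ) * J.card) * ((1 - ε / 2) * Fintype.card Ω) ≤
          ((∑ x ∈ I ×ˢ J, (W x).card : ℕ) : ℝ) := by
        push_cast
        have := Finset.card_nsmul_le_sum (I ×ˢ J) (fun x => ((W x).card : ℝ))
          ((1 - ε / 2) * Fintype.card Ω) (fun x _ => hW3 x)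
        rw [nsmul_eq_mul, Finset.card_product] at this
        push_cast at this
        exact this
      refine le_trans ?_ hsum
      have hIJ : (n : ℝ) * N - (I.card : ℝ) * J.card ≤ ε / 2 * (n * N) := by
        have h1 : (n : ℝ) - I.card ≤ ε / 4 * n := by linarith
        have h2 : (N : ℝ) - J.card ≤ ε / 4 * N := by linarith
        have h3 : ((n : ℝ) - I.card) * N ≤ ε / 4 * n * N := mul_le_mul_of_nonneg_right h1 (Nat.cast_nonneg _)
        have h4 : (I.card : ℝ) * ((N : ℝ) - J.card) ≤ n * (ε / 4 * N) :=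
          mul_le_mul hI2 h2 (by linarith) (Nat.cast_nonneg _)
        nlinarith
      have hIJ2 : (I.card : ℝ) * J.card ≤ n * N :=
        mul_le_mul hI2 hJ2 (Nat.cast_nonneg _) (Nat.cast_nonneg _)
      have h5 : ((n : ℝ) * N - (I.card : ℝ) * J.card) * Fintype.card Ω ≤ ε / 2 * (n * N) * Fintype.card Ω :=
        mul_le_mul_of_nonneg_right hIJ hO
      have h6 : (I.card : ℝ) * J.card * (ε / 2 * Fintype.card Ω) ≤ n * N * (ε / 2 * Fintype.card Ω) :=
        mul_le_mul_of_nonneg_right hIJ2 (by positivity)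
      nlinarith
  · rintro g h ⟨⟨i, k⟩, ω⟩ ⟨⟨i', k'⟩, ω'⟩ hh -
    have hv : vt g i.val k.val = vt h i'.val k'.val := congrArg Sigma.fst hh
    have hh' : ψ g (vt g i.val k.val) ω = ψ h (vt g i.val k.val) ω' := by
      have : ψ g (vt g i.val k.val) ω = ψ h (vt h i'.val k'.val) ω' := hh
      rw [← hv] at this
      exact this
    have h1 : a (rep G (vt g i.val k.val)) (kap g (vt g i.val k.val)) ω =
        a (rep G (vt g i.val k.val)) (kap h (vt g i.val k.val)) ω' := by
      have := Sigma.mk.inj_iff.1 hh'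
      exact eq_of_heq this.2
    have hSv := hrepS g i.val k.val k.2
    have h2 := (hS _ hSv).2 _ _ _ _ h1
    refine ⟨(g⁻¹ • vt g i.val k.val, h⁻¹ • vt g i.val k.val), ⟨_, ?_, _, ?_, rfl⟩,
      (((kap g (vt g i.val k.val))⁻¹ * kap h (vt g i.val k.val) :
        MulAction.stabilizer G (rep G (vt g i.val k.val))) : G), ?_, ?_⟩
    · exact hAm (by have := k.2; omega) (hvt g _ _)
    · rw [hv]
      exact hAm (by have := k'.2; omega) (hvt h _ _)
    · simp only [Set.mem_iUnion]
      exact ⟨_, hSv, _, h2, rfl⟩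
    · exact (kap_pair g h _).symm

end Pool.Agent.U293.EP
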